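import Mathlib

set_option autoImplicit false

open Set

namespace Pool.Agent.Results.MP_209919_co.QTwo

/-- All distances between distinct points of `X` are rational. -/
def IsRational {V : Type} [NormedAddCommGroup V] (X : Set V) : Prop :=
  ∀ x ∈ X, ∀ y ∈ X, x ≠ y → ∃ q : ℚ, ‖x - y‖ = q

/-- `X` is contained in an affine hyperplane `{x | ⟨v, x⟩ = b}`, `v ≠ 0`. -/
def InHyperplane {V : Type} [NormedAddCommGroup V] [InnerProductSpace ℝ V] (X : Set V) : Prop :=
  ∃ (v : V) (b : ℝ), v ≠ 0 ∧ ∀ x ∈ X, inner ℝ v x = b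

/-- The sphere with centre `c` and radius `ρ` contains an infinite rational set that is not
contained in any hyperplane. -/
def Spanning {V : Type} [NormedAddCommGroup V] [InnerProductSpace ℝ V] (c : V) (ρ : ℝ) : Prop :=
  ∃ X : Set V, (∀ x ∈ X, ‖x - c‖ = ρ) ∧ X.Infinite ∧ IsRational X ∧ ¬ InHyperplane X

def Good (d : ℕ) (m : ℝ) : Prop :=
  ∃ X : Set (Fin d → ℝ), X.Infinite ∧ (∀ x ∈ X, ∑ i, x i ^ 2 = m) ∧
    (∀ x ∈ X, ∀ y ∈ X, ∃ q : ℚ, ∑ i, (x i - y i) ^ 2 = (q : ℝ) ^ 2) ∧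
    ∀ (v : Fin d → ℝ) (b : ℝ), (∀ x ∈ X, ∑ i, v i * x i = b) → v = 0

theorem base (m : ℚ) (hm : 0 < m) : Good 2 m := by
  obtain ⟨r, r0, hr⟩ : ∃ r : ℝ, 0 < r ∧ r ^ 2 = m :=
    ⟨Real.sqrt m, Real.sqrt_pos.2 (by exact_mod_cast hm), Real.sq_sqrt (by exact_mod_cast hm.le)⟩
  let s : ℕ → ℚ := fun t => 2 * t / (1 + m * t ^ 2)
  let c : ℕ → ℚ := fun t => (1 - m * t ^ 2) / (1 + m * t ^ 2)
  have h1 : ∀ t, (c t : ℝ) ^ 2 + r ^ 2 * (s t : ℝ) ^ 2 = 1 := fun t => by
    have : c t ^ 2 + m * s t ^ 2 = 1 := by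
      simp only [c, s]
      field_simp
      ring
    rw [hr]
    exact_mod_cast this
  let P : ℕ → Fin 2 → ℝ := fun t => ![r * (c t ^ 2 - r ^ 2 * s t ^ 2), 2 * r ^ 2 * c t * s t]
  have hd : ∀ t u, ∑ i, (P t i - P u i) ^ 2 = ((2 * m * (s t * c u - c t * s u) : ℚ) : ℝ) ^ 2 := by
    intro t u
    simp only [P, Fin.sum_univ_two, Matrix.cons_val_zero, Matrix.cons_val_one]
    push_cast
    rw [← hr]
    linear_combination r ^ 2 * ((c t : ℝ) ^ 2 + r ^ 2 * s t ^ 2 - (c u ^ 2 + r ^ 2 * s u ^ 2)) *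
      (h1 t - h1 u)
  refine ⟨range P, infinite_range_of_injective fun t u e => ?_, ?_, ?_, fun v b h => ?_⟩
  · have := hd t u
    simp only [e, sub_self, ne_eq, OfNat.ofNat_ne_zero, not_false_eq_true, zero_pow,
      Finset.sum_const_zero] at this
    have a : 2 * m * (s t * c u - c t * s u) = 0 := by exact_mod_cast pow_eq_zero_iff two_ne_zero |>.1 this.symm
    have b : s t * c u - c t * s u =
        2 * (t - u) * (1 + m * t * u) / ((1 + m * t ^ 2) * (1 + m * u ^ 2)) := by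
      simp only [c, s]
      field_simp
      ring
    rw [b] at a
    have p1 : (1 + m * t * u : ℚ) ≠ 0 := by positivity
    have p2 : (1 + m * t ^ 2 : ℚ) ≠ 0 := by positivity
    have p3 : (1 + m * u ^ 2 : ℚ) ≠ 0 := by positivity
    simpa [hm.ne', p1, p2, p3, sub_eq_zero] using a
  · rintro _ ⟨t, rfl⟩
    simp only [P, Fin.sum_univ_two, Matrix.cons_val_zero, Matrix.cons_val_one]
    rw [← hr]
    linear_combination r ^ 2 * ((c t : ℝ) ^ 2 + r ^ 2 * s t ^ 2 + 1) * h1 t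
  · rintro _ ⟨t, rfl⟩ _ ⟨u, rfl⟩
    exact ⟨_, hd t u⟩
  · have m0 : (0 : ℝ) < m := by exact_mod_cast hm
    have e : ∀ t : ℕ, t ≠ 0 → -(2 * r * t) * v 0 + (1 - m * t ^ 2) * v 1 = 0 := by
      intro t ht
      have a := h _ ⟨t, rfl⟩
      have a0 := h _ ⟨0, rfl⟩
      have t0 : (0 : ℝ) < t := by positivity
      simp only [P, Fin.sum_univ_two, Matrix.cons_val_zero, Matrix.cons_val_one] at a a0
      have z : (s 0 : ℝ) = 0 ∧ (c 0 : ℝ) = 1 := by simp [s, c]
      rw [z.1, z.2] at a0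
      have k : 2 * r ^ 2 * s t * (-(r * s t) * v 0 + c t * v 1) = 0 := by
        linear_combination a - a0 - r * v 0 * h1 t
      have s0 : (0 : ℝ) < s t := by
        simp only [s]
        push_cast
        positivity
      have k' := (mul_eq_zero.1 k).resolve_left (by positivity)
      simp only [s, c] at k'
      push_cast at k'
      field_simp at k'
      linear_combination k'
    have e1 := e 1 one_ne_zero
    have e2 := e 2 two_ne_zero
    push_cast at e1 e2
    have v1 : v 1 = 0 := by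
      have : (1 + 2 * (m : ℝ)) * v 1 = 0 := by linear_combination 2 * e1 - e2
      exact (mul_eq_zero.1 this).resolve_left (by positivity)
    have v0 : v 0 = 0 := by
      have : r * v 0 = 0 := by
        rw [v1] at e1
        linear_combination (-1 / 2) * e1
      exact (mul_eq_zero.1 this).resolve_left r0.ne'
    funext i
    fin_cases i
    · exact v0
    · exact v1

theorem good (d : ℕ) : ∀ m : ℚ, 0 < m → Good (d + 2) m := by
  induction d with
  | zero => exact base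
  | succ d ih =>
    intro m hm
    have m0 : (0 : ℝ) < m := by exact_mod_cast hm
    obtain ⟨r, r0, hr⟩ : ∃ r : ℝ, 0 < r ∧ r ^ 2 = m :=
      ⟨Real.sqrt m, Real.sqrt_pos.2 m0, Real.sq_sqrt m0.le⟩
    obtain ⟨l, l0, l1⟩ := exists_rat_btwn r0
    have l2 : (0 : ℚ) < l ^ 2 - l ^ 4 / (4 * m) := by
      have : (0 : ℝ) < l ^ 2 - l ^ 4 / (4 * m) := by
        rw [sub_pos, div_lt_iff₀ (by positivity), ← hr]
        have : (l : ℝ) ^ 2 < r ^ 2 := by gcongr
        nlinarith [sq_pos_of_pos l0, sq_pos_of_pos r0]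
      exact_mod_cast this
    obtain ⟨X, X1, X2, X3, X4⟩ := ih _ l2
    push_cast at X2
    rw [← hr] at X2 ⊢
    let a : ℝ := r - l ^ 2 / (2 * r)
    let f : (Fin (d + 2) → ℝ) → Fin (d + 1 + 2) → ℝ := fun x => Fin.cons a x
    let A : Fin (d + 1 + 2) → ℝ := Fin.cons r 0
    have hA : ∀ x ∈ X, ∑ i, (A i - f x i) ^ 2 = (l : ℝ) ^ 2 := fun x hx => by
      rw [Fin.sum_univ_succ]
      simp only [A, f, Fin.cons_zero, Fin.cons_succ, Pi.zero_apply, zero_sub, neg_sq, X2 x hx, a]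
      field_simp
      ring
    refine ⟨insert A (f '' X), (X1.image fun x _ y _ e => funext fun i => congrFun e i.succ).mono
      (subset_insert _ _), ?_, ?_, fun v b h => ?_⟩
    · rintro _ (rfl | ⟨x, hx, rfl⟩) <;> rw [Fin.sum_univ_succ]
      · simp [A]
      · simp only [f, Fin.cons_zero, Fin.cons_succ, X2 x hx, a]
        field_simp
        ring
    · rintro _ (rfl | ⟨x, hx, rfl⟩) _ (rfl | ⟨y, hy, rfl⟩)
      · exact ⟨0, by simp⟩
      · exact ⟨l, hA y hy⟩
      · exact ⟨l, by rw [← hA x hx]; exact Finset.sum_congr rfl fun i _ => by ring⟩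
      · obtain ⟨q, hq⟩ := X3 x hx y hy
        exact ⟨q, by rw [Fin.sum_univ_succ, ← hq]; simp [f]⟩
    · have t := X4 (fun i => v i.succ) (b - v 0 * a) fun x hx => by
        have := h _ (Or.inr ⟨x, hx, rfl⟩)
        rw [Fin.sum_univ_succ] at this
        simp only [f, Fin.cons_zero, Fin.cons_succ] at this
        linarith
      have t' : ∀ i : Fin (d + 2), v i.succ = 0 := fun i => congrFun t i
      obtain ⟨x, hx⟩ := X1.nonempty
      have e1 := h _ (Or.inr ⟨x, hx, rfl⟩)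
      have e2 := h _ (Or.inl rfl)
      rw [Fin.sum_univ_succ] at e1 e2
      simp only [f, A, Fin.cons_zero, t', zero_mul, Finset.sum_const_zero, add_zero, a] at e1 e2
      have : v 0 * (l ^ 2 / (2 * r)) = 0 := by linear_combination e2 - e1
      funext i
      exact Fin.cases ((mul_eq_zero.1 this).resolve_right (by positivity)) t' i

theorem nec {V : Type} [NormedAddCommGroup V] [InnerProductSpace ℝ V] [FiniteDimensional ℝ V]
    {c : V} {ρ : ℝ} (h : Spanning c ρ) : ∃ q : ℚ, ρ ^ 2 = q := by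
  obtain ⟨X, h1, h2, h3, h4⟩ := h
  obtain ⟨o, ho⟩ := h2.nonempty
  have sq : ∀ x ∈ X, ∀ y ∈ X, ∃ q : ℚ, ‖x - y‖ ^ 2 = q := fun x hx y hy => by
    by_cases e : x = y
    · exact ⟨0, by simp [e]⟩
    · obtain ⟨q, hq⟩ := h3 x hx y hy e
      exact ⟨q ^ 2, by rw [hq]; push_cast; rfl⟩
  have gr : ∀ x ∈ X, ∀ y ∈ X, ∃ q : ℚ, inner ℝ (x - o) (y - o) = (q : ℝ) := fun x hx y hy => by
    obtain ⟨a, ha⟩ := sq x hx o ho
    obtain ⟨b, hb⟩ := sq y hy o ho
    obtain ⟨e, he⟩ := sq x hx y hy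
    rw [show x - y = (x - o) - (y - o) by abel, norm_sub_sq_real] at he
    exact ⟨(a + b - e) / 2, by push_cast; linarith⟩
  have no : ‖c - o‖ = ρ := by rw [norm_sub_rev]; exact h1 o ho
  have gu : ∀ x ∈ X, ∃ q : ℚ, inner ℝ (x - o) (c - o) = (q : ℝ) := fun x hx => by
    obtain ⟨a, ha⟩ := sq x hx o ho
    have : ‖x - c‖ ^ 2 = ρ ^ 2 := by rw [h1 x hx]
    rw [show x - c = (x - o) - (c - o) by abel, norm_sub_sq_real, no] at this
    exact ⟨a / 2, by push_cast; linarith⟩
  have z : ∀ v : V, (∀ x ∈ X, inner ℝ (x - o) v = 0) → v = 0 := fun v hv => by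
    by_contra k
    refine h4 ⟨v, inner ℝ v o, k, fun x hx => ?_⟩
    have := hv x hx
    rw [inner_sub_left, real_inner_comm v x, real_inner_comm v o] at this
    linarith
  have top : Submodule.span ℝ ((fun x => x - o) '' X) = ⊤ := by
    rw [← Submodule.orthogonal_eq_bot_iff, eq_bot_iff]
    intro v hv
    exact z v fun x hx => hv _ (Submodule.subset_span ⟨x, hx, rfl⟩)
  obtain ⟨n, a, g, hg⟩ := Submodule.mem_span_set'.1 (top ▸ Submodule.mem_top :
    c - o ∈ Submodule.span ℝ ((fun x => x - o) '' X))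
  obtain ⟨π, hπ⟩ := LinearMap.exists_leftInverse_of_injective (Algebra.linearMap ℚ ℝ)
    (LinearMap.ker_eq_bot.2 (algebraMap ℚ ℝ).injective)
  have π1 : ∀ q : ℚ, π (q : ℝ) = q := fun q => LinearMap.congr_fun hπ q
  have e : c - o = ∑ i, (π (a i) : ℝ) • (g i : V) := by
    refine sub_eq_zero.1 (z _ fun x hx => ?_)
    have : ∀ i, ∃ q : ℚ, inner ℝ (x - o) (g i : V) = (q : ℝ) := fun i => by
      obtain ⟨y, hy, e⟩ := (g i).2
      exact e ▸ gr x hx y hy
    choose G hG using this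
    obtain ⟨q, hq⟩ := gu x hx
    have e1 : (q : ℝ) = ∑ i, G i • a i := by
      rw [← hq, ← hg, inner_sum]
      exact Finset.sum_congr rfl fun i _ => by
        rw [real_inner_smul_right, hG, Rat.smul_def, mul_comm]
    have e2 : q = ∑ i, G i * π (a i) := by
      rw [← π1 q, e1, map_sum]
      simp
    rw [inner_sub_right, hq, inner_sum, e2, sub_eq_zero]
    push_cast
    exact Finset.sum_congr rfl fun i _ => by rw [real_inner_smul_right, hG, mul_comm]
  have : ∀ i, ∃ q : ℚ, inner ℝ (g i : V) (c - o) = (q : ℝ) := fun i => by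
    obtain ⟨y, hy, e⟩ := (g i).2
    exact e ▸ gu y hy
  choose G hG using this
  refine ⟨∑ i, π (a i) * G i, ?_⟩
  rw [← no, ← real_inner_self_eq_norm_sq]
  nth_rw 1 [e]
  rw [sum_inner]
  push_cast
  exact Finset.sum_congr rfl fun i _ => by rw [real_inner_smul_left, hG]

theorem result (d : ℕ) (c : EuclideanSpace ℝ (Fin d)) (ρ : ℝ) (hρ : 0 < ρ) :
    Spanning c ρ ↔ 2 ≤ d ∧ ∃ q : ℚ, ρ ^ 2 = q := by
  constructor
  · intro h
    refine ⟨?_, nec h⟩
    obtain ⟨X, h1, h2, -, -⟩ := h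
    by_contra k
    obtain rfl | rfl : d = 0 ∨ d = 1 := by omega
    · exact h2 (toFinite X)
    · refine h2 (Finite.of_finite_image (f := fun x => x 0)
        ((toFinite {c 0 + ρ, c 0 - ρ}).subset ?_) fun x _ y _ e => ?_)
      · rintro _ ⟨x, hx, rfl⟩
        have := h1 x hx
        rw [EuclideanSpace.norm_eq, Fin.sum_univ_one, Real.sqrt_sq (norm_nonneg _),
          Real.norm_eq_abs, abs_eq hρ.le] at this
        rcases this with e | e
        · exact Or.inl (by simp at e; linarith)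
        · exact Or.inr (by simp at e; show x 0 = _; linarith)
      · ext i
        fin_cases i
        exact e
  · rintro ⟨hd, q, hq⟩
    obtain ⟨d, rfl⟩ := Nat.exists_eq_add_of_le' hd
    obtain ⟨X, X1, X2, X3, X4⟩ := good d q (by exact_mod_cast hq ▸ pow_pos hρ 2)
    let f : (Fin (d + 2) → ℝ) → EuclideanSpace ℝ (Fin (d + 2)) := fun x => WithLp.toLp 2 x + c
    refine ⟨f '' X, ?_, X1.image fun x _ y _ e => by simpa [f] using e, ?_, ?_⟩
    · rintro _ ⟨x, hx, rfl⟩
      simp only [f, add_sub_cancel_right, EuclideanSpace.norm_eq, Real.norm_eq_abs, sq_abs]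
      rw [X2 x hx, ← hq, Real.sqrt_sq hρ.le]
    · rintro _ ⟨x, hx, rfl⟩ _ ⟨y, hy, rfl⟩ -
      obtain ⟨s, hs⟩ := X3 x hx y hy
      refine ⟨|s|, ?_⟩
      simp only [f, add_sub_add_right_eq_sub, EuclideanSpace.norm_eq, Real.norm_eq_abs, sq_abs,
        PiLp.sub_apply]
      rw [hs, Real.sqrt_sq_eq_abs, Rat.cast_abs]
    · rintro ⟨v, b, v0, hv⟩
      refine v0 ?_
      have := X4 (fun i => v i) (b - inner ℝ v c) fun x hx => by
        rw [← hv _ ⟨x, hx, rfl⟩, inner_add_right, add_sub_cancel_right, PiLp.inner_apply]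
        exact Finset.sum_congr rfl fun i _ => by simp [mul_comm]
      ext i
      exact congrFun this i

end Pool.Agent.Results.MP_209919_co.QTwo
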